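import Mathlib
import Pool.Agent.Helper5.NE.Stmts

/-! Packet P13 (BlkStmt): approximation of block diagonal compressions. -/

namespace Pool.Agent.Helper13.NE

open scoped InnerProductSpace ComplexConjugate ENNReal Topology
open Filter ContinuousLinearMap
set_option linter.unusedSectionVars false

noncomputable section

/-! ### The square root lemma -/

theorem exists_sqrt {K : Type} [NormedAddCommGroup K] [InnerProductSpace ℂ K] [CompleteSpace K]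
    (P : K →L[ℂ] K) (hP : P.IsPositive) : ∃ R : K →L[ℂ] K, star R = R ∧ R * R = P := by
  have hpos : 0 ≤ P := by rwa [ContinuousLinearMap.nonneg_iff_isPositive]
  exact ⟨CFC.sqrt P, (IsSelfAdjoint.of_nonneg (CFC.sqrt_nonneg P)).star_eq,
    CFC.sqrt_mul_sqrt_self P hpos⟩

section SQ

variable {E H : Type} [NormedAddCommGroup E] [InnerProductSpace ℂ E] [CompleteSpace E]
  [NormedAddCommGroup H] [InnerProductSpace ℂ H] [CompleteSpace H]

/-- inclusion of the `i`-th copy -/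
def inc {n : ℕ} (i : Fin n) : E →L[ℂ] PiLp 2 (fun _ : Fin n => E) :=
  (PiLp.continuousLinearEquiv 2 ℂ (fun _ : Fin n => E)).symm.toContinuousLinearMap ∘L
    ContinuousLinearMap.single ℂ (fun _ : Fin n => E) i

theorem inc_apply {n : ℕ} (i k : Fin n) (v : E) : inc i v k = if k = i then v else 0 := by
  show (Pi.single i v : Fin n → E) k = _
  rw [Pi.single_apply]

/-- coordinate -/
def prj {n : ℕ} (k : Fin n) : PiLp 2 (fun _ : Fin n => E) →L[ℂ] E :=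
  PiLp.proj 2 (fun _ : Fin n => E) k

theorem prj_apply {n : ℕ} (k : Fin n) (v : PiLp 2 (fun _ : Fin n => E)) : prj k v = v k := rfl

/-- the operator with matrix `T` -/
def matOp {n : ℕ} (T : Fin n → Fin n → (E →L[ℂ] H)) :
    PiLp 2 (fun _ : Fin n => E) →L[ℂ] PiLp 2 (fun _ : Fin n => H) :=
  ∑ k, ∑ j, (inc k : H →L[ℂ] PiLp 2 (fun _ : Fin n => H)) ∘L T k j ∘L prj j

theorem matOp_apply {n : ℕ} (T : Fin n → Fin n → (E →L[ℂ] H)) (v : PiLp 2 (fun _ : Fin n => E))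
    (k : Fin n) : matOp T v k = ∑ j, T k j (v j) := by
  have h : ∀ w : PiLp 2 (fun _ : Fin n => H), w k = (prj k : _ →L[ℂ] H) w := fun w => rfl
  rw [h, matOp, sum_apply, map_sum, Finset.sum_eq_single k]
  · rw [sum_apply, map_sum]
    refine Finset.sum_congr rfl fun j _ => ?_
    rw [prj_apply]
    simp only [ContinuousLinearMap.comp_apply]
    rw [inc_apply, if_pos rfl, prj_apply]
  · intro b _ hb
    rw [sum_apply, map_sum]
    refine Finset.sum_eq_zero fun j _ => ?_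
    rw [prj_apply]
    simp only [ContinuousLinearMap.comp_apply]
    rw [inc_apply, if_neg (Ne.symm hb)]
  · intro h2; exact absurd (Finset.mem_univ k) h2

theorem matOp_inc {n : ℕ} (T : Fin n → Fin n → (E →L[ℂ] H)) (i k : Fin n) (v : E) :
    matOp T (inc i v) k = T k i v := by
  rw [matOp_apply, Finset.sum_eq_single i]
  · rw [inc_apply, if_pos rfl]
  · intro j _ hj
    rw [inc_apply, if_neg hj, map_zero]
  · intro h2; exact absurd (Finset.mem_univ i) h2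

/-- the square root lemma -/
theorem sqrt_lemma {n : ℕ} (T : Fin n → Fin n → (E →L[ℂ] H)) :
    ∃ z : Matrix (Fin n) (Fin n) (E →L[ℂ] E), ∀ i j,
      ∑ k, star (z k i) * z k j = ∑ k, (T k i).adjoint ∘L T k j := by
  obtain ⟨R, hRs, hRR⟩ := exists_sqrt ((matOp T).adjoint ∘L matOp T)
    (isPositive_adjoint_comp_self (matOp T))
  refine ⟨fun k i => prj k ∘L R ∘L inc i, fun i j => ?_⟩
  refine ContinuousLinearMap.ext fun w => ext_inner_left ℂ fun v => ?_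
  rw [sum_apply, sum_apply, inner_sum, inner_sum]
  have h1 : ∀ k, ⟪v, (star (prj k ∘L R ∘L inc i : E →L[ℂ] E) * (prj k ∘L R ∘L inc j)) w⟫_ℂ =
      ⟪(R (inc i v)) k, (R (inc j w)) k⟫_ℂ := by
    intro k
    rw [ContinuousLinearMap.star_eq_adjoint, mul_apply_eq_comp,
      ContinuousLinearMap.adjoint_inner_right]
    rfl
  have h2 : ∀ k, ⟪v, ((T k i).adjoint ∘L T k j) w⟫_ℂ =
      ⟪(matOp T (inc i v)) k, (matOp T (inc j w)) k⟫_ℂ := by
    intro k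
    rw [ContinuousLinearMap.comp_apply, ContinuousLinearMap.adjoint_inner_right, matOp_inc,
      matOp_inc]
  simp_rw [h1, h2]
  rw [← PiLp.inner_apply, ← PiLp.inner_apply, ← ContinuousLinearMap.adjoint_inner_right,
    ← ContinuousLinearMap.adjoint_inner_right, ← ContinuousLinearMap.star_eq_adjoint R, hRs,
    ← mul_apply_eq_comp R R, hRR, ContinuousLinearMap.adjoint_inner_right,
    ContinuousLinearMap.comp_apply, ContinuousLinearMap.adjoint_inner_right]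

end SQ

/-! ### Block operators -/

section Block

variable {Z E : Type} [NormedAddCommGroup E] [InnerProductSpace ℂ E]

abbrev KK (Z E : Type) [NormedAddCommGroup E] [InnerProductSpace ℂ E] : Type :=
  lp (fun _ : Z => E) 2

theorem KK.summable (f : KK Z E) : Summable fun z => ‖f z‖ ^ 2 := by
  have h := (lp.memℓp f).summable (by simp)
  simpa using h

theorem KK.norm_sq (f : KK Z E) : ‖f‖ ^ 2 = ∑' z, ‖f z‖ ^ 2 := by
  have h := lp.norm_rpow_eq_tsum (p := 2) (by simp) f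
  simpa using h

theorem KK.mem {f : Z → E} (hf : Summable fun z => ‖f z‖ ^ 2) : Memℓp f 2 := by
  refine memℓp_gen ?_
  simpa using hf

theorem blk_le {y : Z → E →L[ℂ] E} {B : ℝ} (hB : ∀ z, ‖y z‖ ≤ B) (k : KK Z E) (z : Z) :
    ‖y z (k z)‖ ^ 2 ≤ B ^ 2 * ‖k z‖ ^ 2 := by
  rw [← mul_pow]
  exact pow_le_pow_left₀ (norm_nonneg _) ((y z).le_of_opNorm_le (hB z) _) 2

theorem blk_summable {y : Z → E →L[ℂ] E} {B : ℝ} (hB : ∀ z, ‖y z‖ ≤ B) (k : KK Z E) :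
    Summable fun z => ‖y z (k z)‖ ^ 2 :=
  Summable.of_nonneg_of_le (fun z => by positivity) (blk_le hB k) ((KK.summable k).mul_left _)

/-- block diagonal operator, as a linear map -/
def BlL (y : Z → E →L[ℂ] E) (B : ℝ) (hB : ∀ z, ‖y z‖ ≤ B) : KK Z E →ₗ[ℂ] KK Z E where
  toFun := fun k => ⟨fun z => y z (k z), KK.mem (blk_summable hB k)⟩
  map_add' := fun k l => by
    refine lp.ext (funext fun z => ?_)
    show y z ((k + l : KK Z E) z) = y z (k z) + y z (l z)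
    rw [← map_add]; rfl
  map_smul' := fun c k => by
    refine lp.ext (funext fun z => ?_)
    show y z ((c • k : KK Z E) z) = c • y z (k z)
    rw [← map_smul]; rfl

theorem BlL_le (y : Z → E →L[ℂ] E) (B : ℝ) (hB : ∀ z, ‖y z‖ ≤ B) (k : KK Z E) :
    ‖BlL y B hB k‖ ≤ |B| * ‖k‖ := by
  refine abs_le_of_sq_le_sq' ?_ (by positivity) |>.2
  rw [mul_pow, sq_abs, KK.norm_sq, KK.norm_sq, ← tsum_mul_left]
  exact (blk_summable hB k).tsum_le_tsum (blk_le hB k) ((KK.summable k).mul_left _)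

/-- block diagonal operator -/
def Bl (y : Z → E →L[ℂ] E) (B : ℝ) (hB : ∀ z, ‖y z‖ ≤ B) : KK Z E →L[ℂ] KK Z E :=
  LinearMap.mkContinuous (BlL y B hB) |B| (BlL_le y B hB)

theorem Bl_apply (y : Z → E →L[ℂ] E) (B : ℝ) (hB : ∀ z, ‖y z‖ ≤ B) (k : KK Z E) (z : Z) :
    Bl y B hB k z = y z (k z) := rfl

theorem Bl_norm (y : Z → E →L[ℂ] E) (B : ℝ) (hB : ∀ z, ‖y z‖ ≤ B) (h0 : 0 ≤ B) :
    ‖Bl y B hB‖ ≤ B := by
  have h : ‖Bl y B hB‖ ≤ |B| := LinearMap.mkContinuous_norm_le _ (abs_nonneg B) _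
  rwa [abs_of_nonneg h0] at h

section Main

variable {H : Type} [NormedAddCommGroup H] [InnerProductSpace ℂ H] [CompleteSpace H]
  [CompleteSpace E]

theorem V_summable {Q : Z → (E →L[ℂ] H)} {r : ℝ} (hr : 0 < r)
    (hQ : ∀ ξ : H, Summable (fun z => ‖(Q z).adjoint ξ‖ ^ 2)) (ξ : H) :
    Summable fun z => ‖((√r : ℝ) : ℂ) • (Q z).adjoint ξ‖ ^ 2 := by
  have h : ∀ z, ‖((√r : ℝ) : ℂ) • (Q z).adjoint ξ‖ ^ 2 = r * ‖(Q z).adjoint ξ‖ ^ 2 := fun z => by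
    rw [norm_smul, mul_pow, Complex.norm_real, Real.norm_eq_abs, sq_abs, Real.sq_sqrt hr.le]
  simp_rw [h]
  exact (hQ ξ).mul_left r

/-- the map `ξ ↦ (√r Q_z^* ξ)_z` -/
def VL (Q : Z → (E →L[ℂ] H)) (r : ℝ) (hr : 0 < r)
    (hQ : ∀ ξ : H, Summable (fun z => ‖(Q z).adjoint ξ‖ ^ 2)) : H →ₗ[ℂ] KK Z E where
  toFun := fun ξ => ⟨fun z => ((√r : ℝ) : ℂ) • (Q z).adjoint ξ, KK.mem (V_summable hr hQ ξ)⟩
  map_add' := fun ξ η => by
    refine lp.ext (funext fun z => ?_)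
    show ((√r : ℝ) : ℂ) • (Q z).adjoint (ξ + η) =
      ((√r : ℝ) : ℂ) • (Q z).adjoint ξ + ((√r : ℝ) : ℂ) • (Q z).adjoint η
    rw [map_add, smul_add]
  map_smul' := fun c ξ => by
    refine lp.ext (funext fun z => ?_)
    show ((√r : ℝ) : ℂ) • (Q z).adjoint (c • ξ) = c • (((√r : ℝ) : ℂ) • (Q z).adjoint ξ)
    rw [map_smul, smul_comm]

theorem VL_le (Q : Z → (E →L[ℂ] H)) (r : ℝ) (hr : 0 < r)
    (hQ : ∀ ξ : H, Summable (fun z => ‖(Q z).adjoint ξ‖ ^ 2))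
    (hb : ∀ ξ : H, r * ∑' z, ‖(Q z).adjoint ξ‖ ^ 2 ≤ ‖ξ‖ ^ 2) (ξ : H) :
    ‖VL Q r hr hQ ξ‖ ≤ 1 * ‖ξ‖ := by
  rw [one_mul]
  refine abs_le_of_sq_le_sq' ?_ (norm_nonneg _) |>.2
  refine le_trans (le_of_eq ?_) (hb ξ)
  rw [KK.norm_sq, ← tsum_mul_left]
  refine tsum_congr fun z => ?_
  show ‖((√r : ℝ) : ℂ) • (Q z).adjoint ξ‖ ^ 2 = _
  rw [norm_smul, mul_pow, Complex.norm_real, Real.norm_eq_abs, sq_abs, Real.sq_sqrt hr.le]

/-- the data of the packet -/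
structure Dat (Z E H : Type) [NormedAddCommGroup E] [InnerProductSpace ℂ E] [CompleteSpace E]
    [NormedAddCommGroup H] [InnerProductSpace ℂ H] [CompleteSpace H] where
  Q : Z → (E →L[ℂ] H)
  r : ℝ
  hr : 0 < r
  hQ1 : ∀ z, ‖Q z‖ ≤ 1
  hQ : ∀ ξ : H, Summable (fun z => ‖(Q z).adjoint ξ‖ ^ 2)
  hb : ∀ ξ : H, r * ∑' z, ‖(Q z).adjoint ξ‖ ^ 2 ≤ ‖ξ‖ ^ 2

namespace Dat

variable (d : Dat Z E H)

/-- the contraction `V` -/
def V : H →L[ℂ] KK Z E := LinearMap.mkContinuous (VL d.Q d.r d.hr d.hQ) 1 (VL_le d.Q d.r d.hr d.hQ d.hb)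

theorem V_apply (ξ : H) (z : Z) : d.V ξ z = ((√d.r : ℝ) : ℂ) • (d.Q z).adjoint ξ := rfl

theorem V_norm : ‖d.V‖ ≤ 1 := LinearMap.mkContinuous_norm_le _ zero_le_one _

theorem Vs_norm : ‖d.V.adjoint‖ ≤ 1 := by
  rw [LinearIsometryEquiv.norm_map]; exact d.V_norm

/-- the compression of `T` to the block `z` -/
def cmp (T : H →L[ℂ] H) (z : Z) : E →L[ℂ] E := (d.Q z).adjoint ∘L T ∘L d.Q z

theorem cmp_norm (T : H →L[ℂ] H) (z : Z) : ‖d.cmp T z‖ ≤ ‖T‖ := by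
  have h1 : ‖(d.Q z).adjoint‖ ≤ 1 := by rw [LinearIsometryEquiv.norm_map]; exact d.hQ1 z
  calc ‖d.cmp T z‖ ≤ ‖(d.Q z).adjoint‖ * ‖T ∘L d.Q z‖ := opNorm_comp_le _ _
    _ ≤ 1 * (‖T‖ * ‖d.Q z‖) := by
        gcongr
        exact opNorm_comp_le _ _
    _ ≤ 1 * (‖T‖ * 1) := by
        gcongr
        exact d.hQ1 z
    _ = ‖T‖ := by ring

/-- conjugation of a block operator by `V` -/
def cj (y : Z → E →L[ℂ] E) (B : ℝ) (hB : ∀ z, ‖y z‖ ≤ B) : H →L[ℂ] H :=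
  d.V.adjoint ∘L Bl y B hB ∘L d.V

theorem cj_norm (y : Z → E →L[ℂ] E) (B : ℝ) (hB : ∀ z, ‖y z‖ ≤ B) (h0 : 0 ≤ B) :
    ‖d.cj y B hB‖ ≤ B := by
  calc ‖d.cj y B hB‖ ≤ ‖d.V.adjoint‖ * ‖Bl y B hB ∘L d.V‖ := opNorm_comp_le _ _
    _ ≤ 1 * (‖Bl y B hB‖ * ‖d.V‖) := by
        gcongr
        · exact d.Vs_norm
        · exact opNorm_comp_le _ _
    _ ≤ 1 * (B * 1) := by
        gcongr
        · exact Bl_norm y B hB h0
        · exact d.V_norm
    _ = B := by ring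

theorem cj_add (y1 y2 y : Z → E →L[ℂ] E) (B1 B2 B : ℝ) (h1 : ∀ z, ‖y1 z‖ ≤ B1)
    (h2 : ∀ z, ‖y2 z‖ ≤ B2) (h : ∀ z, ‖y z‖ ≤ B) (he : ∀ z, y z = y1 z + y2 z) :
    d.cj y B h = d.cj y1 B1 h1 + d.cj y2 B2 h2 := by
  refine ContinuousLinearMap.ext fun ξ => ?_
  show d.V.adjoint (Bl y B h (d.V ξ)) = d.V.adjoint (Bl y1 B1 h1 (d.V ξ)) +
    d.V.adjoint (Bl y2 B2 h2 (d.V ξ))
  rw [← map_add]
  congr 1
  refine lp.ext (funext fun z => ?_)
  show y z (d.V ξ z) = y1 z (d.V ξ z) + y2 z (d.V ξ z)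
  rw [he]; rfl

theorem cj_smul (c : ℂ) (y1 y : Z → E →L[ℂ] E) (B1 B : ℝ) (h1 : ∀ z, ‖y1 z‖ ≤ B1)
    (h : ∀ z, ‖y z‖ ≤ B) (he : ∀ z, y z = c • y1 z) :
    d.cj y B h = c • d.cj y1 B1 h1 := by
  refine ContinuousLinearMap.ext fun ξ => ?_
  show d.V.adjoint (Bl y B h (d.V ξ)) = c • d.V.adjoint (Bl y1 B1 h1 (d.V ξ))
  rw [← map_smul]
  congr 1
  refine lp.ext (funext fun z => ?_)
  show y z (d.V ξ z) = c • y1 z (d.V ξ z)
  rw [he]; rfl

/-- the compression `θ` -/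
def th : (H →L[ℂ] H) →ₗ[ℂ] (H →L[ℂ] H) where
  toFun := fun T => d.cj (d.cmp T) ‖T‖ (d.cmp_norm T)
  map_add' := fun S T => d.cj_add _ _ _ _ _ _ _ _ _ (fun z => by
    refine ContinuousLinearMap.ext fun v => ?_
    show (d.Q z).adjoint ((S + T) (d.Q z v)) =
      (d.Q z).adjoint (S (d.Q z v)) + (d.Q z).adjoint (T (d.Q z v))
    rw [← map_add]; rfl)
  map_smul' := fun c T => d.cj_smul _ _ _ _ _ _ _ (fun z => by
    refine ContinuousLinearMap.ext fun v => ?_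
    show (d.Q z).adjoint ((c • T) (d.Q z v)) = c • (d.Q z).adjoint (T (d.Q z v))
    rw [← map_smul]; rfl)

theorem th_norm (T : H →L[ℂ] H) : ‖d.th T‖ ≤ ‖T‖ := d.cj_norm _ _ _ (norm_nonneg T)

theorem th_hasSum (T : H →L[ℂ] H) (ξ η : H) :
    HasSum (fun z => (d.r : ℂ) * ⟪d.Q z ((d.Q z).adjoint η), T (d.Q z ((d.Q z).adjoint ξ))⟫_ℂ)
      ⟪η, d.th T ξ⟫_ℂ := by
  have h1 : ⟪η, d.th T ξ⟫_ℂ = ⟪d.V η, Bl (d.cmp T) ‖T‖ (d.cmp_norm T) (d.V ξ)⟫_ℂ := by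
    show ⟪η, d.V.adjoint _⟫_ℂ = _
    rw [ContinuousLinearMap.adjoint_inner_right]; rfl
  rw [h1]
  have key := lp.hasSum_inner (𝕜 := ℂ) (d.V η) (Bl (d.cmp T) ‖T‖ (d.cmp_norm T) (d.V ξ))
  have e : (fun z => (d.r : ℂ) * ⟪d.Q z ((d.Q z).adjoint η), T (d.Q z ((d.Q z).adjoint ξ))⟫_ℂ) =
      fun z => ⟪d.V η z, Bl (d.cmp T) ‖T‖ (d.cmp_norm T) (d.V ξ) z⟫_ℂ := by
    funext z
    rw [Bl_apply, V_apply, V_apply, map_smul, inner_smul_left, inner_smul_right,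
      Complex.conj_ofReal, ← mul_assoc, ← Complex.ofReal_mul, Real.mul_self_sqrt d.hr.le]
    congr 1
    show _ = ⟪(d.Q z).adjoint η, (d.Q z).adjoint (T (d.Q z ((d.Q z).adjoint ξ)))⟫_ℂ
    rw [ContinuousLinearMap.adjoint_inner_right]
  rw [e]
  exact key

/-! ### The factorization -/

section Fact

variable {ι : Type} [Fintype ι] (zz : ι → Z) (c : Z → ι)

/-- compressions to finitely many blocks -/
def phi : (H →L[ℂ] H) →ₗ[ℂ] (ι → (E →L[ℂ] E)) where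
  toFun := fun T i => d.cmp T (zz i)
  map_add' := fun S T => funext fun i => by
    refine ContinuousLinearMap.ext fun v => ?_
    show (d.Q (zz i)).adjoint ((S + T) (d.Q (zz i) v)) =
      (d.Q (zz i)).adjoint (S (d.Q (zz i) v)) + (d.Q (zz i)).adjoint (T (d.Q (zz i) v))
    rw [← map_add]; rfl
  map_smul' := fun a T => funext fun i => by
    refine ContinuousLinearMap.ext fun v => ?_
    show (d.Q (zz i)).adjoint ((a • T) (d.Q (zz i) v)) = a • (d.Q (zz i)).adjoint (T (d.Q (zz i) v))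
    rw [← map_smul]; rfl

/-- the way back -/
def psi : (ι → (E →L[ℂ] E)) →ₗ[ℂ] (H →L[ℂ] H) where
  toFun := fun x => d.cj (fun z => x (c z)) ‖x‖ (fun z => norm_le_pi_norm x (c z))
  map_add' := fun _ _ => d.cj_add _ _ _ _ _ _ _ _ _ (fun _ => rfl)
  map_smul' := fun _ _ => d.cj_smul _ _ _ _ _ _ _ (fun _ => rfl)

theorem phi_norm (T : H →L[ℂ] H) : ‖d.phi zz T‖ ≤ ‖T‖ :=
  (pi_norm_le_iff_of_nonneg (norm_nonneg T)).2 fun i => d.cmp_norm T (zz i)

theorem psi_norm (x : ι → (E →L[ℂ] E)) : ‖d.psi c x‖ ≤ ‖x‖ := d.cj_norm _ _ _ (norm_nonneg x)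

theorem phi_ccp : Pool.Agent.Helper5.NE.CCP (d.phi zz) := by
  refine ⟨d.phi_norm zz, fun n y => ?_⟩
  have h : ∀ a : ι, ∃ z : Matrix (Fin n) (Fin n) (E →L[ℂ] E), ∀ i j,
      ∑ k, star (z k i) * z k j =
        ∑ k, (y k i ∘L d.Q (zz a)).adjoint ∘L (y k j ∘L d.Q (zz a)) :=
    fun a => sqrt_lemma (fun k i => y k i ∘L d.Q (zz a))
  choose z hz using h
  refine ⟨Matrix.of fun k i => fun a => z a k i, ?_⟩
  ext1 i j
  rw [Matrix.map_apply, Matrix.mul_apply, Matrix.mul_apply]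
  refine funext fun a => ?_
  have e1 : (∑ k, (star (Matrix.of fun (k i : Fin n) => fun (a : ι) => z a k i) :
      Matrix (Fin n) (Fin n) (ι → (E →L[ℂ] E))) i k *
      (Matrix.of fun (k i : Fin n) => fun (a : ι) => z a k i) k j) a =
        ∑ k, star (z a k i) * z a k j := by
    rw [Finset.sum_apply]
    rfl
  refine Eq.trans ?_ e1.symm
  rw [hz]
  show (d.Q (zz a)).adjoint ∘L (∑ k, star (y k i) * y k j) ∘L d.Q (zz a) = _
  refine ContinuousLinearMap.ext fun v => ext_inner_left ℂ fun w => ?_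
  rw [ContinuousLinearMap.comp_apply, ContinuousLinearMap.adjoint_inner_right,
    ContinuousLinearMap.comp_apply, sum_apply, sum_apply, inner_sum, inner_sum]
  refine Finset.sum_congr rfl fun k _ => ?_
  rw [mul_apply_eq_comp, ContinuousLinearMap.star_eq_adjoint,
    ContinuousLinearMap.adjoint_inner_right, ContinuousLinearMap.comp_apply,
    ContinuousLinearMap.adjoint_inner_right]
  rfl

theorem psi_ccp : Pool.Agent.Helper5.NE.CCP (d.psi c) := by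
  refine ⟨d.psi_norm c, fun n y => ?_⟩
  obtain ⟨z, hz⟩ := sqrt_lemma (fun (k i : Fin n) =>
    Bl (fun w => y k i (c w)) ‖y k i‖ (fun w => norm_le_pi_norm (y k i) (c w)) ∘L d.V)
  refine ⟨z, ?_⟩
  ext1 i j
  rw [Matrix.map_apply, Matrix.mul_apply, Matrix.mul_apply]
  refine Eq.trans ?_ (hz i j).symm
  refine ContinuousLinearMap.ext fun v => ext_inner_left ℂ fun w => ?_
  rw [sum_apply, inner_sum]
  have e1 : ∀ k, ⟪w, ((Bl (fun w => y k i (c w)) ‖y k i‖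
        (fun w => norm_le_pi_norm (y k i) (c w)) ∘L d.V).adjoint ∘L
      (Bl (fun w => y k j (c w)) ‖y k j‖ (fun w => norm_le_pi_norm (y k j) (c w)) ∘L d.V)) v⟫_ℂ =
      ⟪w, d.psi c (star (y k i) * y k j) v⟫_ℂ := by
    intro k
    rw [ContinuousLinearMap.comp_apply, ContinuousLinearMap.adjoint_inner_right]
    show _ = ⟪w, d.V.adjoint (Bl (fun w => (star (y k i) * y k j) (c w)) ‖star (y k i) * y k j‖
      (fun w => norm_le_pi_norm (star (y k i) * y k j) (c w)) (d.V v))⟫_ℂ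
    rw [ContinuousLinearMap.adjoint_inner_right, ContinuousLinearMap.comp_apply,
      ContinuousLinearMap.comp_apply, lp.inner_eq_tsum, lp.inner_eq_tsum]
    refine tsum_congr fun u => ?_
    rw [Bl_apply, Bl_apply, Bl_apply, Pi.mul_apply, Pi.star_apply, mul_apply_eq_comp,
      ContinuousLinearMap.star_eq_adjoint, ContinuousLinearMap.adjoint_inner_right]
  simp_rw [e1]
  rw [← inner_sum, ← sum_apply, ← map_sum]
  rfl

end Fact

theorem cj_sub_norm (y1 y2 : Z → E →L[ℂ] E) (B1 B2 e : ℝ) (h1 : ∀ z, ‖y1 z‖ ≤ B1)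
    (h2 : ∀ z, ‖y2 z‖ ≤ B2) (he : 0 ≤ e) (h : ∀ z, ‖y1 z - y2 z‖ ≤ e) :
    ‖d.cj y1 B1 h1 - d.cj y2 B2 h2‖ ≤ e := by
  have h3 := d.cj_add y2 (fun z => y1 z - y2 z) y1 B2 e B1 h2 h h1
    (fun z => (add_sub_cancel (y2 z) (y1 z)).symm)
  rw [h3, add_sub_cancel_left]
  exact d.cj_norm _ _ _ he

end Dat

end Main

end Block

theorem blk : Pool.Agent.Helper5.NE.BlkStmt := by
  intro Z H E _ _ _ _ _ _ Q r hr hQ1 hQ
  let d : Dat Z E H := ⟨Q, r, hr, hQ1, fun ξ => (hQ ξ).1, fun ξ => (hQ ξ).2⟩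
  refine ⟨d.th, d.th_norm, d.th_hasSum, fun F ε hε => ?_⟩
  let f : Z → (F → (E →L[ℂ] E)) := fun z T => d.cmp T.1 z
  have : ProperSpace (F → (E →L[ℂ] E)) := FiniteDimensional.proper ℂ _
  have htb : TotallyBounded (Set.range f) := by
    refine (isCompact_closedBall (0 : F → (E →L[ℂ] E)) (∑ T ∈ F, ‖T‖)).totallyBounded.subset ?_
    rintro _ ⟨z, rfl⟩
    rw [mem_closedBall_zero_iff]
    refine (pi_norm_le_iff_of_nonneg (Finset.sum_nonneg fun T _ => norm_nonneg T)).2 fun T => ?_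
    exact (d.cmp_norm T.1 z).trans
      (Finset.single_le_sum (f := fun T : H →L[ℂ] H => ‖T‖) (fun T _ => norm_nonneg T) T.2)
  obtain ⟨t, hts, htf, hcov⟩ := Metric.finite_approx_of_totallyBounded htb (ε / 2) (half_pos hε)
  have hrep : ∀ p : {x // x ∈ htf.toFinset}, ∃ z, f z = p.1 := fun p =>
    hts (htf.mem_toFinset.1 p.2)
  choose zz hzz using hrep
  have hc : ∀ z, ∃ p : {x // x ∈ htf.toFinset}, dist (f z) p.1 < ε / 2 := fun z => by
    have h1 := hcov (Set.mem_range_self z)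
    simp only [Set.mem_iUnion] at h1
    obtain ⟨y, hy, h2⟩ := h1
    exact ⟨⟨y, htf.mem_toFinset.2 hy⟩, h2⟩
  choose c hcz using hc
  refine ⟨{x // x ∈ htf.toFinset} → (E →L[ℂ] E), inferInstance, inferInstance, d.phi zz, d.psi c,
    d.phi_ccp zz, d.psi_ccp c, fun T hT => ?_⟩
  refine lt_of_le_of_lt ?_ (half_lt_self hε)
  refine d.cj_sub_norm _ _ _ _ _ _ _ (half_pos hε).le fun z => ?_
  have h1 : ‖f (zz (c z)) - f z‖ ≤ ε / 2 := by
    rw [hzz, ← dist_eq_norm, dist_comm]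
    exact (hcz z).le
  exact (norm_le_pi_norm (f (zz (c z)) - f z) ⟨T, hT⟩).trans h1

end

end Pool.Agent.Helper13.NE
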